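import Pool.Agent.Q161.RunSort

/-!
MP_84eedd_co: the descent polynomials of run-sorted permutations are same-phase stable (Q1), but
consecutive specialisations need not interlace (Q2).
-/

set_option autoImplicit false

namespace Pool.Agent.Results.MP_84eedd_co.RunSortedStability

open Finset Polynomial Q161.RunSort

/-- `w` is a run-sorted permutation of `1, …, n` in one-line notation: `L` is the list of the blocks
of a set partition of `{1, …, n}`, ordered by increasing smallest element, and `w` is obtained by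
writing each block in increasing order and concatenating -/
def IsRunSorted (n : ℕ) (w : List ℕ) : Prop :=
  ∃ L : List (Finset ℕ), (∀ A ∈ L, A.Nonempty) ∧ L.Pairwise Disjoint ∧
    (∀ x, (∃ A ∈ L, x ∈ A) ↔ 1 ≤ x ∧ x ≤ n) ∧ L.Pairwise (fun A B => A.min < B.min) ∧
    w = (L.map (fun A => A.sort (· ≤ ·))).flatten

open Classical in
/-- `RSP(n)` -/
noncomputable def RSP (n : ℕ) : Finset (List ℕ) :=
  (List.range' 1 n).permutations.toFinset.filter (IsRunSorted n)

/-- the descent set of a permutation of `1, …, n`: the `k` in `{1, …, n-1}` with `w(k) > w(k+1)`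
(`w.getD i 0` is the letter number `i + 1`) -/
def DES (n : ℕ) (w : List ℕ) : Finset ℕ :=
  (Icc 1 (n - 1)).filter (fun k => w.getD k 0 < w.getD (k - 1) 0)

/-- the polynomial `Q_n` in the variables `x_1, x_2, …` -/
noncomputable def Q (n : ℕ) : MvPolynomial ℕ ℝ :=
  ∑ w ∈ RSP n, ∏ k ∈ DES n w, MvPolynomial.X k

/-- `p(λ_1 t, λ_2 t, …)` -/
noncomputable def phase (lam : ℕ → ℝ) (p : MvPolynomial ℕ ℝ) : ℝ[X] :=
  MvPolynomial.aeval (fun k => C (lam k) * X) p

/-- for all positive `λ` all complex zeros of `p(λ_1 t, λ_2 t, …)` are real -/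
def SamePhaseStable (p : MvPolynomial ℕ ℝ) : Prop :=
  ∀ lam : ℕ → ℝ, (∀ k, 0 < lam k) → ∀ z : ℂ, aeval z (phase lam p) = 0 → z.im = 0

/-- all roots of `f` are real and `≤ 0` -/
def RealNonposRoots (f : ℝ[X]) : Prop :=
  Multiset.card f.roots = f.natDegree ∧ ∀ r ∈ f.roots, r ≤ 0

/-- the roots in decreasing order with multiplicity -/
noncomputable def rootList (f : ℝ[X]) : List ℝ := f.roots.sort (· ≥ ·)

/-- `f ≼ g`: `0 ≥ g_1 ≥ f_1 ≥ g_2 ≥ f_2 ≥ ⋯` -/
def Interlaces (f g : ℝ[X]) : Prop :=
  (∀ (i : ℕ) (hi : i < (rootList f).length) (hi' : i < (rootList g).length),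
    (rootList f)[i] ≤ (rootList g)[i]) ∧
  (∀ (i : ℕ) (hi : i < (rootList f).length) (hi' : i + 1 < (rootList g).length),
    (rootList g)[i + 1] ≤ (rootList f)[i])

/-! ### run-sorted words and the automaton -/

theorem sort_head {A : Finset ℕ} (hA : A.Nonempty) :
    ((A.sort (· ≤ ·)).headD 0 : WithTop ℕ) = A.min := by
  have hne : A.sort (· ≤ ·) ≠ [] := by
    intro h
    have h2 := sort_toFinset (r := (· ≤ ·)) A
    rw [h] at h2
    rw [← h2] at hA
    exact absurd hA (by simp)
  obtain ⟨a, l, h⟩ := List.exists_cons_of_ne_nil hne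
  have hmem : ∀ x, x ∈ a :: l ↔ x ∈ A := by
    intro x; rw [← h, mem_sort]
  have hp : (a :: l).Pairwise (· ≤ ·) := by rw [← h]; exact pairwise_sort A (· ≤ ·)
  rw [h]
  show ((a : ℕ) : WithTop ℕ) = A.min
  apply le_antisymm
  · apply Finset.le_min
    intro b hb
    rw [← hmem, List.mem_cons] at hb
    rw [List.pairwise_cons] at hp
    rcases hb with rfl | hb
    · exact le_refl _
    · exact WithTop.coe_le_coe.2 (hp.1 b hb)
  · exact min_le ((hmem a).1 List.mem_cons_self)

theorem sort_lt (A : Finset ℕ) : (A.sort (· ≤ ·)).Pairwise (· < ·) :=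
  (sortedLT_sort A).pairwise

theorem sort_toFinset_of_lt {l : List ℕ} (h : l.Pairwise (· < ·)) :
    l.toFinset.sort (· ≤ ·) = l := by
  have hnd : l.Nodup := h.imp (fun h => ne_of_lt h)
  apply List.Perm.eq_of_pairwise (le := (· ≤ ·)) (fun a b _ _ h1 h2 => le_antisymm h1 h2)
    (pairwise_sort _ (· ≤ ·)) (h.imp (fun h => le_of_lt h))
  rw [List.perm_ext_iff_of_nodup (sort_nodup _ _) hnd]
  intro a
  rw [mem_sort, List.mem_toFinset]

theorem headD_lt_iff {a b : List ℕ} (ha : a ≠ []) (hb : b ≠ []) (ha' : a.Pairwise (· < ·))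
    (hb' : b.Pairwise (· < ·)) : a.headD 0 < b.headD 0 ↔ a.toFinset.min < b.toFinset.min := by
  have hA : a.toFinset.Nonempty := by
    rw [List.toFinset_nonempty_iff]; exact ha
  have hB : b.toFinset.Nonempty := by
    rw [List.toFinset_nonempty_iff]; exact hb
  rw [← sort_head hA, ← sort_head hB, sort_toFinset_of_lt ha', sort_toFinset_of_lt hb']
  exact WithTop.coe_lt_coe.symm

theorem runSorted_iff {n : ℕ} {w : List ℕ} (hw : w ∈ words (Icc 1 (n + 1))) :
    IsRunSorted (n + 1) w ↔ ∃ j u, w = j :: u ∧ Fol j j u := by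
  rw [mem_words] at hw
  obtain ⟨hnd, hfin⟩ := hw
  have hmemw : ∀ x, x ∈ w ↔ 1 ≤ x ∧ x ≤ n + 1 := by
    intro x; rw [← List.mem_toFinset, hfin, mem_Icc]
  constructor
  · rintro ⟨L, h1, h2, h3, h4, h5⟩
    cases L with
    | nil =>
      have := (hmemw 1).2 ⟨le_refl _, by omega⟩
      rw [h5] at this
      exact absurd this (by simp)
    | cons A L =>
      have hA := h1 A List.mem_cons_self
      have hne : A.sort (· ≤ ·) ≠ [] := by
        intro h
        have h2 := sort_toFinset (r := (· ≤ ·)) A
        rw [h] at h2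
        rw [← h2] at hA
        exact absurd hA (by simp)
      obtain ⟨j, l, hjl⟩ := List.exists_cons_of_ne_nil hne
      refine ⟨j, l ++ (L.map (fun A => A.sort (· ≤ ·))).flatten, ?_, ?_⟩
      · rw [h5, List.map_cons, List.flatten_cons, hjl]; rfl
      · have hnd' : (j :: (l ++ (L.map (fun A => A.sort (· ≤ ·))).flatten)).Nodup := by
          have : w = j :: (l ++ (L.map (fun A => A.sort (· ≤ ·))).flatten) := by
            rw [h5, List.map_cons, List.flatten_cons, hjl]; rfl
          rw [← this]; exact hnd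
        rw [fol_iff _ _ _ hnd']
        rw [List.pairwise_cons] at h4
        have hlt : ∀ B ∈ L, A.min < B.min := h4.1
        have hjA : ((j : ℕ) : WithTop ℕ) = A.min := by
          rw [← sort_head hA, hjl]; rfl
        refine ⟨l, L.map (fun A => A.sort (· ≤ ·)), rfl, ?_, ?_, ?_, ?_⟩
        · rw [← hjl]; exact sort_lt A
        · intro a ha
          rw [List.mem_map] at ha
          obtain ⟨B, hB, rfl⟩ := ha
          refine ⟨?_, sort_lt B⟩
          intro h
          have hBn := h1 B (List.mem_cons_of_mem _ hB)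
          have h2 := sort_toFinset (r := (· ≤ ·)) B
          rw [h] at h2
          rw [← h2] at hBn
          exact absurd hBn (by simp)
        · rw [List.pairwise_map]
          apply h4.2.imp_of_mem
          intro B B' hB hB' hlt'
          have e1 := sort_head (h1 B (List.mem_cons_of_mem _ hB))
          have e2 := sort_head (h1 B' (List.mem_cons_of_mem _ hB'))
          rw [← e1, ← e2] at hlt'
          exact WithTop.coe_lt_coe.1 hlt'
        · intro a ha
          rw [List.mem_map] at ha
          obtain ⟨B, hB, rfl⟩ := ha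
          have h6 := hlt B hB
          rw [← hjA, ← sort_head (h1 B (List.mem_cons_of_mem _ hB))] at h6
          exact WithTop.coe_lt_coe.1 h6
  · rintro ⟨j, u, rfl, hfol⟩
    rw [fol_iff _ _ _ hnd] at hfol
    obtain ⟨l, L, h1, h2, h3, h4, h5⟩ := hfol
    -- all blocks
    have hall : ∀ a ∈ (j :: l) :: L, a ≠ [] ∧ a.Pairwise (· < ·) := by
      intro a ha
      rw [List.mem_cons] at ha
      rcases ha with rfl | ha
      · exact ⟨by simp, h2⟩
      · exact h3 a ha
    have hflat : j :: u = ((j :: l) :: L).flatten := by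
      rw [h1, List.flatten_cons]; rfl
    refine ⟨((j :: l) :: L).map List.toFinset, ?_, ?_, ?_, ?_, ?_⟩
    · intro A hA
      rw [List.mem_map] at hA
      obtain ⟨a, ha, rfl⟩ := hA
      rw [List.toFinset_nonempty_iff]; exact (hall a ha).1
    · rw [List.pairwise_map]
      rw [hflat, List.nodup_flatten] at hnd
      apply hnd.2.imp
      intro a b hab
      rw [List.disjoint_toFinset_iff_disjoint]
      exact hab
    · intro x
      rw [← hmemw x, hflat, List.mem_flatten]
      constructor
      · rintro ⟨A, hA, hx⟩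
        rw [List.mem_map] at hA
        obtain ⟨a, ha, rfl⟩ := hA
        exact ⟨a, ha, List.mem_toFinset.1 hx⟩
      · rintro ⟨a, ha, hx⟩
        exact ⟨a.toFinset, List.mem_map_of_mem ha, List.mem_toFinset.2 hx⟩
    · rw [List.pairwise_map]
      have : ((j :: l) :: L).Pairwise (fun a b => a.headD 0 < b.headD 0) := by
        rw [List.pairwise_cons]
        exact ⟨fun a ha => by simpa using h5 a ha, h4⟩
      apply this.imp_of_mem
      intro a b ha hb hab
      exact (headD_lt_iff (hall a ha).1 (hall b hb).1 (hall a ha).2 (hall b hb).2).1 hab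
    · rw [hflat, List.map_map]
      congr 1
      symm
      have : ∀ a ∈ (j :: l) :: L, ((fun A : Finset ℕ => A.sort (· ≤ ·)) ∘ List.toFinset) a = a :=
        fun a ha => sort_toFinset_of_lt (hall a ha).2
      exact (List.map_congr_left this).trans (List.map_id _)

theorem RSP_eq (n : ℕ) : ∀ w, w ∈ RSP (n + 1) ↔
    w ∈ words (Icc 1 (n + 1)) ∧ ∃ j u, w = j :: u ∧ Fol j j u := by
  classical
  intro w
  have h1 : w ∈ (List.range' 1 (n + 1)).permutations.toFinset ↔ w ∈ words (Icc 1 (n + 1)) := by
    rw [mem_words, List.mem_toFinset, List.mem_permutations]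
    constructor
    · intro h
      refine ⟨h.nodup_iff.2 (List.nodup_range'), ?_⟩
      rw [List.toFinset_eq_of_perm _ _ h]
      ext x
      rw [List.mem_toFinset, List.mem_range'_1, mem_Icc]
      omega
    · rintro ⟨h2, h3⟩
      rw [List.perm_ext_iff_of_nodup h2 List.nodup_range']
      intro a
      rw [← List.mem_toFinset, h3, List.mem_range'_1, mem_Icc]
      omega
  unfold RSP
  rw [mem_filter, h1]
  constructor
  · rintro ⟨h2, h3⟩; exact ⟨h2, (runSorted_iff h2).1 h3⟩
  · rintro ⟨h2, h3⟩; exact ⟨h2, (runSorted_iff h2).2 h3⟩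

/-! ### the product over the descents -/

theorem wtl_eq {R : Type*} [CommSemiring R] (x : ℕ → R) (w : List ℕ) : ∀ s j,
    wtl x s j w = ∏ k ∈ range w.length,
      (if w.getD k 0 < (j :: w).getD k 0 then x (s + k) else 1) := by
  induction w with
  | nil => intro s j; rfl
  | cons c w ih =>
    intro s j
    rw [List.length_cons, prod_range_succ']
    show (if c < j then x s else 1) * wtl x (s + 1) c w = _
    rw [ih (s + 1) c, mul_comm]
    congr 1
    · refine prod_congr rfl (fun k _ => ?_)
      rw [show s + 1 + k = s + (k + 1) by ring]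
      rfl

theorem wtl_DES {R : Type*} [CommSemiring R] (x : ℕ → R) {n : ℕ} {w : List ℕ}
    (hw : w ∈ words (Icc 1 (n + 1))) : wtl x 0 0 w = ∏ k ∈ DES (n + 1) w, x k := by
  have hlen : w.length = n + 1 := by
    rw [mem_words] at hw
    have := List.toFinset_card_of_nodup hw.1
    rw [hw.2, Nat.card_Icc] at this
    omega
  rw [wtl_eq, hlen, prod_range_succ']
  have h0 : (if w.getD 0 0 < (0 :: w).getD 0 0 then x (0 + 0) else 1) = 1 := by
    rw [if_neg]
    show ¬ w.getD 0 0 < 0
    omega
  rw [h0, mul_one]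
  unfold DES
  rw [prod_filter, show n + 1 - 1 = n by omega]
  have : Icc 1 n = (range n).image (fun k => k + 1) := by
    ext a
    rw [mem_Icc, mem_image]
    constructor
    · rintro ⟨h1, h2⟩
      exact ⟨a - 1, by rw [mem_range]; omega, by omega⟩
    · rintro ⟨k, hk, rfl⟩
      rw [mem_range] at hk
      omega
  rw [this, prod_image (fun a _ b _ h => by simpa using h)]
  refine prod_congr rfl (fun k _ => ?_)
  rw [show k + 1 - 1 = k by omega, zero_add]
  rfl

theorem sum_RSP {R : Type*} [CommSemiring R] (x : ℕ → R) (n : ℕ) :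
    ∑ w ∈ RSP (n + 1), ∏ k ∈ DES (n + 1) w, x k = hh x n n 1 := by
  classical
  rw [← total x n, ← sum_filter]
  apply sum_congr
  · ext w
    rw [RSP_eq, mem_filter]
  · intro w hw
    rw [mem_filter] at hw
    exact (wtl_DES x hw.1).symm

theorem phase_eq (lam : ℕ → ℝ) (n : ℕ) :
    phase lam (Q (n + 1)) = hh (fun k => C (lam k) * X) n n 1 := by
  unfold phase Q
  rw [map_sum, ← sum_RSP]
  refine sum_congr rfl (fun w _ => ?_)
  rw [map_prod]
  refine prod_congr rfl (fun k _ => ?_)
  rw [MvPolynomial.aeval_X]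

theorem hh_map {R S : Type*} [CommSemiring R] [CommSemiring S] (φ : R →+* S) (x : ℕ → R) (k : ℕ) :
    ∀ p s, φ (hh x k p s) = hh (fun i => φ (x i)) k p s := by
  induction k with
  | zero => intro p s; exact map_one φ
  | succ k ih =>
    intro p s
    rw [hh, hh, map_add, map_sum]
    congr 1
    · exact sum_congr rfl (fun i _ => ih i (s + 1))
    · split_ifs
      · rw [map_mul, ih]
      · exact map_zero φ

/-! ### the relation on complex numbers -/

/-- the relation `a ⊴ b` at the point `z` -/
def R (z a b : ℂ) : Prop := 0 ≤ (b * starRingEnd ℂ a).im ∧ 0 ≤ (z * a * starRingEnd ℂ b).im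

theorem R_add_left {z a a' b : ℂ} (h : R z a b) (h' : R z a' b) : R z (a + a') b := by
  constructor
  · rw [map_add, mul_add, Complex.add_im]; exact add_nonneg h.1 h'.1
  · rw [mul_add, add_mul, Complex.add_im]; exact add_nonneg h.2 h'.2

theorem R_add_right {z a b b' : ℂ} (h : R z a b) (h' : R z a b') : R z a (b + b') := by
  constructor
  · rw [add_mul, Complex.add_im]; exact add_nonneg h.1 h'.1
  · rw [map_add, mul_add, Complex.add_im]; exact add_nonneg h.2 h'.2

theorem R_zero_left (z b : ℂ) : R z 0 b := by constructor <;> simp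

theorem R_zero_right (z a : ℂ) : R z a 0 := by constructor <;> simp

theorem R_sum_left {z b : ℂ} {s : Finset ℕ} {f : ℕ → ℂ} (h : ∀ i ∈ s, R z (f i) b) :
    R z (∑ i ∈ s, f i) b := by
  induction s using Finset.induction_on with
  | empty => rw [sum_empty]; exact R_zero_left _ _
  | insert a s ha ih =>
    rw [sum_insert ha]
    exact R_add_left (h a (mem_insert_self _ _)) (ih (fun i hi => h i (mem_insert_of_mem hi)))

theorem R_sum_right {z a : ℂ} {s : Finset ℕ} {f : ℕ → ℂ} (h : ∀ i ∈ s, R z a (f i)) :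
    R z a (∑ i ∈ s, f i) := by
  induction s using Finset.induction_on with
  | empty => rw [sum_empty]; exact R_zero_right _ _
  | insert b s hb ih =>
    rw [sum_insert hb]
    exact R_add_right (h b (mem_insert_self _ _)) (ih (fun i hi => h i (mem_insert_of_mem hi)))

theorem R_self {z : ℂ} (hz : 0 < z.im) (a : ℂ) : R z a a := by
  constructor
  · rw [Complex.mul_conj]; simp
  · rw [mul_assoc, Complex.mul_conj, Complex.im_mul_ofReal]
    exact mul_nonneg hz.le (Complex.normSq_nonneg _)

theorem R_rot {z a b : ℂ} (h : R z a b) {c : ℝ} (hc : 0 ≤ c) : R z b ((c : ℂ) * z * a) := by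
  obtain ⟨h1, h2⟩ := h
  constructor
  · have : (c : ℂ) * z * a * starRingEnd ℂ b = (c : ℂ) * (z * a * starRingEnd ℂ b) := by ring
    rw [this, Complex.im_ofReal_mul]
    exact mul_nonneg hc h2
  · have : z * b * starRingEnd ℂ ((c : ℂ) * z * a) =
        (c * Complex.normSq z : ℝ) * (b * starRingEnd ℂ a) := by
      push_cast
      rw [← Complex.mul_conj z]
      simp only [map_mul, Complex.conj_ofReal]
      ring
    rw [this, Complex.im_ofReal_mul]
    exact mul_nonneg (mul_nonneg hc (Complex.normSq_nonneg _)) h1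

theorem add_ne_zero {z a b : ℂ} (hz : 0 < z.im) (ha : a ≠ 0) (h : R z a b) : a + b ≠ 0 := by
  intro h0
  have hb : b = -a := by linear_combination h0
  have h2 := h.2
  rw [hb] at h2
  have h3 : z * a * starRingEnd ℂ (-a) = -((Complex.normSq a : ℝ) * z) := by
    rw [← Complex.mul_conj a, map_neg]; ring
  rw [h3, Complex.neg_im, Complex.im_ofReal_mul] at h2
  have h4 : 0 < Complex.normSq a * z.im := mul_pos (Complex.normSq_pos.2 ha) hz
  linarith

theorem main_ineq {z : ℂ} (hz : 0 < z.im) (lam : ℕ → ℝ) (hlam : ∀ k, 0 < lam k) (k : ℕ) :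
    ∀ s, (∀ p p', p' < p → p ≤ k → R z (hh (fun i => (lam i : ℂ) * z) k p s)
        (hh (fun i => (lam i : ℂ) * z) k p' s)) ∧
      hh (fun i => (lam i : ℂ) * z) k k s ≠ 0 := by
  induction k with
  | zero =>
    intro s
    refine ⟨fun p p' h1 h2 => by omega, ?_⟩
    show (1 : ℂ) ≠ 0
    exact one_ne_zero
  | succ k ih =>
    intro s
    obtain ⟨ih1, ih2⟩ := ih (s + 1)
    set G : ℕ → ℂ := fun p => hh (fun i => (lam i : ℂ) * z) k p (s + 1) with hG
    have ih1' : ∀ p p', p' < p → p ≤ k → R z (G p) (G p') := ih1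
    have ih2' : G k ≠ 0 := ih2
    have hrec : ∀ p, hh (fun i => (lam i : ℂ) * z) (k + 1) p s =
        ∑ i ∈ range p, G i + if p ≤ k then (lam s : ℂ) * z * G k else 0 := fun p => rfl
    have hrot : ∀ r ≤ k, R z (G r) ((lam s : ℂ) * z * G k) := by
      intro r hr
      apply R_rot _ (hlam s).le
      rcases Nat.lt_or_ge r k with h | h
      · exact ih1' k r h (le_refl _)
      · obtain rfl : r = k := by omega
        exact R_self hz _
    have hsplit : ∀ p p', p' ≤ p → ∑ i ∈ range p, G i =
        ∑ i ∈ range p', G i + ∑ i ∈ Ico p' p, G i := by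
      intro p p' h
      rw [range_eq_Ico, range_eq_Ico, sum_Ico_consecutive _ (Nat.zero_le _) h]
    refine ⟨?_, ?_⟩
    · intro p p' h1 h2
      rw [hrec p, hrec p', if_pos (by omega : p' ≤ k), hsplit p p' h1.le]
      have hT : ∀ i ∈ Ico p' p, R z (G i) (∑ i ∈ range p', G i + (lam s : ℂ) * z * G k) := by
        intro i hi
        rw [mem_Ico] at hi
        apply R_add_right
        · apply R_sum_right
          intro l hl
          rw [mem_range] at hl
          exact ih1' i l (by omega) (by omega)
        · exact hrot i (by omega)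
      by_cases hp : p ≤ k
      · rw [if_pos hp]
        have : ∑ i ∈ range p', G i + ∑ i ∈ Ico p' p, G i + (lam s : ℂ) * z * G k =
            (∑ i ∈ range p', G i + (lam s : ℂ) * z * G k) + ∑ i ∈ Ico p' p, G i := by ring
        rw [this]
        exact R_add_left (R_self hz _) (R_sum_left hT)
      · rw [if_neg hp, add_zero]
        apply R_add_left _ (R_sum_left hT)
        apply R_add_right (R_self hz _)
        apply R_sum_left
        intro i hi
        rw [mem_range] at hi
        exact hrot i (by omega)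
    · rw [hrec (k + 1), if_neg (by omega), add_zero, sum_range_succ, add_comm]
      apply add_ne_zero hz ih2'
      apply R_sum_right
      intro i hi
      rw [mem_range] at hi
      exact ih1' k i hi (le_refl _)

theorem stable (n : ℕ) : SamePhaseStable (Q (n + 1)) := by
  intro lam hlam z hz
  rw [phase_eq] at hz
  have key : ∀ z : ℂ, 0 < z.im → aeval z (hh (fun k => C (lam k) * X : ℕ → ℝ[X]) n n 1) ≠ 0 := by
    intro z hz
    have h1 := hh_map (aeval z : ℝ[X] →ₐ[ℝ] ℂ).toRingHom (fun k => C (lam k) * X) n n 1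
    have h2 : (fun i => (aeval z : ℝ[X] →ₐ[ℝ] ℂ).toRingHom (C (lam i) * X)) =
        fun i => (lam i : ℂ) * z := by
      funext i
      show aeval z (C (lam i) * X) = _
      rw [map_mul, aeval_C, aeval_X]
      rfl
    rw [h2] at h1
    have h3 : aeval z (hh (fun k => C (lam k) * X : ℕ → ℝ[X]) n n 1) =
        hh (fun i => (lam i : ℂ) * z) n n 1 := h1
    rw [h3]
    exact ((main_ineq hz lam hlam n) 1).2
  rcases lt_trichotomy z.im 0 with h | h | h
  · exfalso
    apply key (starRingEnd ℂ z) (by simpa using h)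
    rw [aeval_conj, hz, map_zero]
  · exact h
  · exact absurd hz (key z h)

/-! ### the counterexample -/

/-- the counterexample -/
noncomputable def mu (k : ℕ) : ℝ :=
  if k = 2 then 24 else if k = 3 then 6 else if k = 4 then 189 else if k = 5 then 2 else 1

theorem mu_pos (k : ℕ) : 0 < mu k := by
  unfold mu
  split_ifs <;> norm_num

theorem hh5 {R : Type*} [CommSemiring R] (x : ℕ → R) :
    hh x 4 4 1 = 1 + 3 * x 2 + 5 * x 3 + 3 * x 4 + 3 * x 2 * x 4 := by
  simp only [hh, sum_range_succ, range_zero, sum_empty, Nat.reduceAdd, Nat.reduceLeDiff, if_true,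
    if_false, le_refl, Nat.zero_le]
  ring

theorem hh6 {R : Type*} [CommSemiring R] (x : ℕ → R) :
    hh x 5 5 1 = 1 + 4 * x 2 + 9 * x 3 + 9 * x 4 + 4 * x 5 + 8 * x 2 * x 4 + 8 * x 2 * x 5 +
      9 * x 3 * x 5 := by
  simp only [hh, sum_range_succ, range_zero, sum_empty, Nat.reduceAdd, Nat.reduceLeDiff, if_true,
    if_false, le_refl, Nat.zero_le]
  ring

theorem mu_vals : mu 2 = 24 ∧ mu 3 = 6 ∧ mu 4 = 189 ∧ mu 5 = 2 := by
  unfold mu; norm_num

theorem phase5 : phase mu (Q 5) = C 13608 * ((X - C (-1 / 648)) * (X - C (-1 / 21))) := by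
  rw [phase_eq, hh5]
  obtain ⟨h2, h3, h4, h5⟩ := mu_vals
  simp only [h2, h3, h4]
  apply Polynomial.funext
  intro t
  simp
  ring

theorem phase6 : phase mu (Q 6) = C 36780 * ((X - C (-1 / 1839)) * (X - C (-1 / 20))) := by
  rw [phase_eq, hh6]
  obtain ⟨h2, h3, h4, h5⟩ := mu_vals
  simp only [h2, h3, h4, h5]
  apply Polynomial.funext
  intro t
  simp
  ring

theorem roots_quad {c a b : ℝ} (hc : c ≠ 0) : (C c * ((X - C a) * (X - C b))).roots = {a, b} := by
  rw [roots_C_mul _ hc, roots_mul (mul_ne_zero (X_sub_C_ne_zero _) (X_sub_C_ne_zero _)),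
    roots_X_sub_C, roots_X_sub_C]
  rfl

theorem rootList_quad {c a b : ℝ} (hc : c ≠ 0) (hab : b ≤ a) :
    rootList (C c * ((X - C a) * (X - C b))) = [a, b] := by
  unfold rootList
  rw [roots_quad hc]
  apply List.Perm.eq_of_pairwise (le := (· ≥ ·)) (fun x y _ _ h1 h2 => le_antisymm h2 h1)
    (Multiset.pairwise_sort _ (· ≥ ·)) (by simpa using hab)
  rw [← Multiset.coe_eq_coe, Multiset.sort_eq]
  rfl

theorem rnr_quad {c a b : ℝ} (hc : c ≠ 0) (ha : a ≤ 0) (hb : b ≤ 0) :
    RealNonposRoots (C c * ((X - C a) * (X - C b))) := by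
  constructor
  · rw [roots_quad hc, natDegree_C_mul hc, natDegree_mul (X_sub_C_ne_zero _) (X_sub_C_ne_zero _),
      natDegree_X_sub_C, natDegree_X_sub_C]
    rfl
  · intro r hr
    rw [roots_quad hc] at hr
    simp only [Multiset.insert_eq_cons, Multiset.mem_cons, Multiset.mem_singleton] at hr
    rcases hr with rfl | rfl
    · exact ha
    · exact hb

/-- **Q1 is true, Q2 is false.** `Q_n` is same-phase stable for every `n ≥ 1`; but there are
positive `λ_k` (for instance `λ = (1, 24, 6, 189, 2, 1, 1, …)`) and `n > 1` (namely `n = 6`) such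
that `Q_{n-1}^λ` does not interlace `Q_n^λ`, although both have only real non-positive roots. -/
theorem result :
    (∀ n, 1 ≤ n → SamePhaseStable (Q n)) ∧
    (∃ lam : ℕ → ℝ, (∀ k, 0 < lam k) ∧ ∃ n, 1 < n ∧ RealNonposRoots (phase lam (Q (n - 1))) ∧
      RealNonposRoots (phase lam (Q n)) ∧
      ¬ Interlaces (phase lam (Q (n - 1))) (phase lam (Q n))) := by
  constructor
  · intro n hn
    obtain ⟨m, rfl⟩ : ∃ m, n = m + 1 := ⟨n - 1, by omega⟩
    exact stable m
  · refine ⟨mu, mu_pos, 6, by norm_num, ?_, ?_, ?_⟩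
    · show RealNonposRoots (phase mu (Q 5))
      rw [phase5]
      exact rnr_quad (by norm_num) (by norm_num) (by norm_num)
    · rw [phase6]
      exact rnr_quad (by norm_num) (by norm_num) (by norm_num)
    · show ¬ Interlaces (phase mu (Q 5)) (phase mu (Q 6))
      rintro ⟨h1, _⟩
      have e5 : rootList (phase mu (Q 5)) = [-1 / 648, -1 / 21] := by
        rw [phase5]; exact rootList_quad (by norm_num) (by norm_num)
      have e6 : rootList (phase mu (Q 6)) = [-1 / 1839, -1 / 20] := by
        rw [phase6]; exact rootList_quad (by norm_num) (by norm_num)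
      simp only [e5, e6] at h1
      have h2 := h1 1 (by simp) (by simp)
      simp at h2
      norm_num at h2

end Pool.Agent.Results.MP_84eedd_co.RunSortedStability
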